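import Pool.Agent.K6.H99.FF.Main
import Pool.Agent.K6.H99.BB.Transfer

/-!
# Bloch-Beilinson filtrations for constant varieties over function fields: the filtration
-/

open CategoryTheory AlgebraicGeometry

universe u v w u' v' w'

namespace Pool.Agent.K6.H99.FF

open Pool.Agent.H914 Pool.Agent.H914.VarClass Pool.Agent.H914.VarClass.Obj Pool.Agent.W492.BB
  Pool.Agent.W550.Corr Pool.Agent.TH133 Pool.Agent.K6.H99.BB

set_option linter.unusedSectionVars false

variable {k : Type u} [Field k] {𝒱 : VarClass k} {C : TheoryData.{u, v, 0} 𝒱 ℚ}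
  [hC : IsChowProj C] {K : Type w} [Field K] {H : WeilTheoryData.{u, v, w} C K}
  [hH : IsWeilProj H]
  {k' : Type u'} [Field k'] {𝒱' : VarClass k'} {C' : TheoryData.{u', v', 0} 𝒱' ℚ}
  [hC' : IsChowProj C'] {K' : Type w'} [Field K'] {H' : WeilTheoryData.{u', v', w'} C' K'}
  [hH' : IsWeilProj H'] {S : 𝒱.Obj} {s : C.A S} {D : ConstantData C C' S}

/-- The filtration: the restrictions to the generic fibre of the cycles on `model Z × S` in the
steps of the Leray filtration. -/
noncomputable def fil (H : WeilTheoryData.{u, v, w} C K) [IsWeilProj H]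
    {H' : WeilTheoryData.{u', v', w'} C' K'} (hD : IsConstant H H' D s) : Filtration C' where
  F Z i n := (lerayC H (D.model Z) S n i).map (D.res Z).toLinearMap
  le_gr Z i n := by
    rintro _ ⟨z, hz, rfl⟩
    exact hD.mem Z i z hz.1
  anti Z i n := by
    refine Submodule.map_mono fun z hz => ⟨hz.1, ?_⟩
    exact leray_anti (by push_cast; omega) hz.2

lemma mem_fil (hD : IsConstant H H' D s) {Z : 𝒱'.Obj} {i n : ℕ} {x : C'.A Z} :
    (fil H hD).Mem i n x ↔ ∃ z ∈ lerayC H (D.model Z) S n i, D.res Z z = x := Iff.rfl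

include hC hH hC' hH'

lemma res₂_surj (hD : IsConstant H H' D s) {Z W : 𝒱'.Obj} {e : ℤ} {Γ : C'.A (Z.prod W)}
    (hΓ : Γ ∈ C'.gr (Z.prod W) (Z.dim + e)) : ∃ G ∈ C.gr (((D.model Z).prod (D.model W)).prod S)
      ((D.model Z).dim + e), D.res₂ Z W G = Γ := by
  obtain ⟨G, h1, h2⟩ := hD.surj₂ Z W _ Γ hΓ
  exact ⟨G, by rw [hD.dim]; exact h1, h2⟩

omit hC hH hC' hH' in
lemma act_res (hD : IsConstant H H' D s) {Z W : 𝒱'.Obj}
    (G : C.A (((D.model Z).prod (D.model W)).prod S)) (z : C.A ((D.model Z).prod S)) :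
    C'.act (D.res₂ Z W G) (D.res Z z) = D.res W (relact G z) := by
  have h1 := hD.push Z W (G * C.pull (prodMap (fst _ _) (𝟙 S)) z)
  have h2 := hD.pull Z W z
  change D.res W (relact G z) = C'.push (snd Z W) (D.res₂ Z W (G * _)) at h1
  rw [h1, map_mul, TheoryData.act_apply]
  exact congrArg (fun t => C'.push (snd Z W) (D.res₂ Z W G * t)) h2.symm

/-- Correspondences respect the filtration. -/
lemma fil_act (hc : IsGradedCommutative H) (hD : IsConstant H H' D s) {Z W : 𝒱'.Obj}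
    {i j n : ℕ} {Γ : C'.A (Z.prod W)} (hΓ : C'.Deg (Z.dim + j - i) Γ) {x : C'.A Z}
    (hx : (fil H hD).Mem i n x) : (fil H hD).Mem j n (C'.act Γ x) := by
  obtain ⟨z, hz, rfl⟩ := hx
  obtain ⟨G, hG, rfl⟩ := res₂_surj hD (e := (j : ℤ) - i)
    (by rw [← add_sub_assoc]; exact hΓ)
  refine ⟨relact G z, ?_, (act_res hD G z).symm⟩
  have := relact_leray hc hG hz
  rwa [add_sub_cancel] at this

/-- Correspondences acting as zero on `H^(2i-n)` shift the filtration. -/
lemma fil_shift (hc : IsGradedCommutative H) (hs : HasDegreeOne s) (hD : IsConstant H H' D s)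
    {Z W : 𝒱'.Obj} {i j n : ℕ} {Γ : C'.A (Z.prod W)} (hΓ : C'.Deg (Z.dim + j - i) Γ)
    (hk : Kills H' Γ (2 * i - n)) {x : C'.A Z} (hx : (fil H hD).Mem i n x) :
    (fil H hD).Mem j (n + 1) (C'.act Γ x) := by
  obtain ⟨z, hz, rfl⟩ := hx
  obtain ⟨G, hG, rfl⟩ := res₂_surj hD (e := (j : ℤ) - i)
    (by rw [← add_sub_assoc]; exact hΓ)
  refine ⟨relact G z, ?_, (act_res hD G z).symm⟩
  have := relact_shift hc hs hG (hD.kills Z W G _ hk) hz
  rw [add_sub_cancel] at this
  exact_mod_cast this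

lemma res_leray_top (hR : ∀ Z, RatHom H ((D.model Z).prod S)) (hK : KunnethConjecture H)
    (hL : ∀ Z, HasLefschetz H (D.model Z)) (hD : IsConstant H H' D s) {Z : 𝒱'.Obj} {i : ℕ}
    {z : C.A ((D.model Z).prod S)} (hz : z ∈ lerayC H (D.model Z) S (i + 1) i) :
    D.res Z z = 0 := by
  by_cases hi : i ≤ (D.model Z).dim
  · obtain ⟨N, w, hw, rfl⟩ := lerayC_top (hR Z) hK (hL Z) hi hz
    rw [map_sum]
    apply Finset.sum_eq_zero
    intro m hm
    rw [Finset.mem_range] at hm
    have h1 : D.res Z (w m) = 0 := by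
      have h2 := hD.mem Z _ _ (hw m hm)
      rw [hD.dim] at h2
      exact hC'.gr_top Z _ _ h2 (by omega)
    rw [extL_eq_relact, ← act_res hD, h1, TheoryData.act_map_zero]
  · exact hC'.gr_top Z _ _ (hD.mem Z i z hz.1) (by rw [← hD.dim]; omega)

lemma res_leray_base (hR : ∀ Z, RatHom H ((D.model Z).prod S)) (hK : KunnethConjecture H)
    (hL : HasLefschetz H S) (hD : IsConstant H H' D s) {Z : 𝒱'.Obj} {i : ℕ}
    {z : C.A ((D.model Z).prod S)} (hz : z ∈ lerayC H (D.model Z) S (S.dim + 1) i) :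
    D.res Z z = 0 := by
  obtain ⟨J, E, r, w, hE, rfl⟩ := lerayC_base (hR Z) hK hL hz
  rw [map_sum]
  apply Finset.sum_eq_zero
  intro m hm
  have h1 : D.res Z (C.pull (snd (D.model Z) S) (E m)) = 0 :=
    hD.base Z (r m) (E m) (hE m hm).1 (hE m hm).2
  rw [map_mul, h1, zero_mul]

/-- **The filtration is a strong Bloch-Beilinson filtration.** -/
theorem isStrongBB_fil (hc : IsGradedCommutative H) (hR : ∀ Z, RatHom H ((D.model Z).prod S))
    (hK : KunnethConjecture H) (hL : ∀ Z, HasLefschetz H (D.model Z)) (hs : HasDegreeOne s) (hD : IsConstant H H' D s) :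
    IsStrongBB H' (fil H hD) where
  bounded := by
    refine ⟨?_, ?_, ?_⟩
    · intro Z i x
      constructor
      · rintro ⟨z, hz, rfl⟩
        exact hD.mem Z i z hz.1
      · intro hx
        obtain ⟨z, hz, rfl⟩ := hD.surj Z i x hx
        refine ⟨z, ⟨hz, ?_⟩, rfl⟩
        rw [Nat.cast_zero, leray_zero]
        exact H.cl_mem hz
    · intro Z i x
      constructor
      · rintro ⟨z, hz, rfl⟩
        refine ⟨hD.mem Z i z hz.1, (hD.hom Z i z hz.1).2 ?_⟩
        rw [cl_fibre]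
        have := hz.2
        rw [Nat.cast_one] at this
        exact fibreH_leray hs.1 this
      · rintro ⟨hx, h0⟩
        obtain ⟨z, hz, rfl⟩ := hD.surj Z i x hx
        refine ⟨z, ⟨hz, ?_⟩, rfl⟩
        rw [Nat.cast_one, ← fibreH_eq_zero_iff hs (H.cl_mem hz), ← cl_fibre]
        exact (hD.hom Z i z hz).1 h0
    · rintro Z i x ⟨z, hz, rfl⟩
      refine res_leray_top hR hK hL hD (i := i) (z := z) ?_
      have h1 := hz
      rw [SetLike.mem_coe] at h1
      push_cast at h1
      exact h1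
  mul := by
    rintro Z i j m n _ _ ⟨z, hz, rfl⟩ ⟨y, hy, rfl⟩
    refine ⟨z * y, ⟨?_, ?_⟩, ?_⟩
    · have := C.mul_mem hz.1 hy.1
      exact_mod_cast this
    · rw [map_mul]
      have := leray_mul hc hz.2 hy.2
      rw [← mul_add] at this
      exact_mod_cast this
    · change D.res Z (z * y) = D.res Z z * D.res Z y
      rw [map_mul]
  act := fun hΓ hx => fil_act hc hD hΓ hx
  shift := fun hΓ hk hx => fil_shift hc hs hD hΓ hk hx

lemma fil_top (hR : ∀ Z, RatHom H ((D.model Z).prod S)) (hK : KunnethConjecture H)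
    (hL : HasLefschetz H S) (hD : IsConstant H H' D s) {Z : 𝒱'.Obj} {i n : ℕ}
    (hn : S.dim < n) {x : C'.A Z} (hx : (fil H hD).Mem i n x) : x = 0 := by
  obtain ⟨z, hz, rfl⟩ := hx
  exact res_leray_base hR hK hL hD (i := i) (z := z) ⟨hz.1, leray_anti (by omega) hz.2⟩

end Pool.Agent.K6.H99.FF
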