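import Pool.Agent.TH133.Murre

/-!
# Chow groups of constant varieties over function fields: definitions
-/

open CategoryTheory AlgebraicGeometry

universe u v w u' v' w'

namespace Pool.Agent.K6.H99.FF

open Pool.Agent.H914 Pool.Agent.H914.VarClass Pool.Agent.H914.VarClass.Obj Pool.Agent.W492.BB
  Pool.Agent.TH133

section

variable {k : Type u} [Field k] {𝒱 : VarClass k} (C : TheoryData.{u, v, 0} 𝒱 ℚ)
  {k' : Type u'} [Field k'] {𝒱' : VarClass k'} (C' : TheoryData.{u', v', 0} 𝒱' ℚ)

/-- The restriction of a class on `X × S` to the fibre of `X × S → S` over the zero-cycle `s` of `S`: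
the class `p_* (z · q^* s)` on `X`. -/
noncomputable def fibre {X S : 𝒱.Obj} (s : C.A S) (z : C.A (X.prod S)) : C.A X :=
  C.down (fst X S) (C.mul z (C.up (snd X S) s))

/-- The data attached to the constant varieties over the function field `k'` of the variety `S`
over `k`: each variety `Z` of the class `𝒱'` over `k'` is obtained from a variety `model Z` over `k` by
extension of the field of definition; `res Z` is the restriction of cycles from `model Z × S` to the
generic fibre `Z` of the projection to `S`, and `res₂ Z W` is the restriction of cycles from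
`(model Z × model W) × S` to `Z × W`. -/
structure ConstantData (S : 𝒱.Obj) where
  /-- the model over `k` -/
  model : 𝒱'.Obj → 𝒱.Obj
  /-- restriction to the generic fibre -/
  res : ∀ Z : 𝒱'.Obj, C.A ((model Z).prod S) →ₐ[ℚ] C'.A Z
  /-- restriction to the generic fibre, for products -/
  res₂ : ∀ Z W : 𝒱'.Obj, C.A (((model Z).prod (model W)).prod S) →ₐ[ℚ] C'.A (Z.prod W)

end

section

variable {k : Type u} [Field k] {𝒱 : VarClass k} {C : TheoryData.{u, v, 0} 𝒱 ℚ}
  {k' : Type u'} [Field k'] {𝒱' : VarClass k'} {C' : TheoryData.{u', v', 0} 𝒱' ℚ} {S : 𝒱.Obj}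
  (D : ConstantData C C' S)

/-- The extension of the field of definition and the restriction of cycles preserve dimensions. -/
def ConstantData.HasDim : Prop := ∀ Z, (D.model Z).dim = Z.dim

/-- The restriction of cycles to the generic fibre preserves codimensions. -/
def ConstantData.HasCodim : Prop :=
  ∀ Z (i : ℤ) (z : C.A ((D.model Z).prod S)), C.Deg i z → C'.Deg i (D.res Z z)

/-- The restriction of cycles to the generic fibre `Z` is surjective. -/
def ConstantData.IsSurj : Prop :=
  ∀ Z (i : ℤ) (x : C'.A Z), C'.Deg i x → ∃ z, C.Deg i z ∧ D.res Z z = x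

/-- The restriction of cycles to the generic fibre `Z × W` is surjective. -/
def ConstantData.IsSurj₂ : Prop :=
  ∀ Z W (i : ℤ) (x : C'.A (Z.prod W)), C'.Deg i x → ∃ z, C.Deg i z ∧ D.res₂ Z W z = x

/-- The restriction of cycles commutes with the pull-back to the first factor of a product. -/
def ConstantData.HasPull : Prop := ∀ Z W (z : C.A ((D.model Z).prod S)),
  D.res₂ Z W (C.up (prodMap (fst (D.model Z) (D.model W)) (𝟙 S)) z) = C'.up (fst Z W) (D.res Z z)

/-- The restriction of cycles commutes with the push-forward to the second factor of a product. -/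
def ConstantData.HasPush : Prop := ∀ Z W (z : C.A (((D.model Z).prod (D.model W)).prod S)),
  D.res W (C.down (prodMap (snd (D.model Z) (D.model W)) (𝟙 S)) z) =
    C'.down (snd Z W) (D.res₂ Z W z)

/-- The restriction to the generic fibre kills the cycles `model Z × D` for `D` of positive
codimension in `S`. -/
def ConstantData.KillsBase : Prop := ∀ Z (j : ℕ) (x : C.A S), 0 < j → C.Deg j x →
  D.res Z (C.up (snd (D.model Z) S) x) = 0

end

section

variable {k : Type u} [Field k] {𝒱 : VarClass k} {C : TheoryData.{u, v, 0} 𝒱 ℚ}
  {K : Type w} [Field K] (H : WeilTheoryData.{u, v, w} C K)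
  {k' : Type u'} [Field k'] {𝒱' : VarClass k'} {C' : TheoryData.{u', v', 0} 𝒱' ℚ}
  {K' : Type w'} [Field K'] (H' : WeilTheoryData.{u', v', w'} C' K')

/-- Smooth and proper base change and specialization: the cohomology class of a restriction to the
generic fibre is zero if and only if the same holds for the restriction to the fibre over the
zero-cycle `s` of `S`. -/
def ConstantData.SpecializesClasses {S : 𝒱.Obj} (D : ConstantData C C' S) (s : C.A S) : Prop :=
  ∀ Z (i : ℤ) (z : C.A ((D.model Z).prod S)), C.Deg i z →
    (H'.cl (D.res Z z) = 0 ↔ H.cl (fibre C s z) = 0)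

/-- Smooth and proper base change and specialization: if a restriction to the generic fibre acts as
zero on the cohomology in degree `m`, then the same holds for the restriction to the fibre over the
zero-cycle `s` of `S`. -/
def ConstantData.SpecializesKills {S : 𝒱.Obj} (D : ConstantData C C' S) (s : C.A S) : Prop :=
  ∀ Z W (z : C.A (((D.model Z).prod (D.model W)).prod S)) (m : ℤ),
    Kills H' (D.res₂ Z W z) m → Kills H (fibre C s z) m

/-- The standard properties of the restriction of cycles to the generic fibres of
`model Z × S → S`, where `s` is a zero-cycle of degree one of `S`. -/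
structure IsConstant {S : 𝒱.Obj} (D : ConstantData C C' S) (s : C.A S) : Prop where
  dim : D.HasDim
  mem : D.HasCodim
  surj : D.IsSurj
  surj₂ : D.IsSurj₂
  pull : D.HasPull
  push : D.HasPush
  base : D.KillsBase
  hom : D.SpecializesClasses H H' s
  kills : D.SpecializesKills H H' s

/-- The zero-cycle `s` has degree one. -/
def HasDegreeOne {S : 𝒱.Obj} (s : C.A S) : Prop :=
  C.Deg S.dim s ∧ ∀ X : 𝒱.Obj, C.down (fst X S) (C.up (snd X S) s) = 1

/-- The class `N` on `X × X` induces the inverse of the product `H^m(X) → H^(2d-m)(X)` with the class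
of `y`, where `d = dim X`. -/
def IsInverse {X : 𝒱.Obj} (y : C.A X) (m : ℕ) (N : C.A (X.prod X)) : Prop :=
  (∀ a : H.A X, H.Deg m a → H.act (H.cl N) (H.mul (H.cl y) a) = a) ∧
    ∀ a : H.A X, H.Deg (2 * X.dim - m) a → H.mul (H.cl y) (H.act (H.cl N) a) = a

/-- The standard conjecture of Lefschetz type for `X`: for a divisor class `h` and every
`m ≤ d = dim X` there is an algebraic correspondence `N` of degree `m - d` on `X` which induces the
inverse of the product `H^m(X) → H^(2d-m)(X)` with `h ^ (d - m)`. It is known for abelian varieties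
(Lieberman, Kleiman). -/
def HasLefschetz (X : 𝒱.Obj) : Prop :=
  ∃ h : C.A X, C.Deg 1 h ∧ ∀ m : ℕ, m ≤ X.dim →
    ∃ N : C.A (X.prod X), C.Deg m N ∧ IsInverse H (h ^ (X.dim - m)) m N

/-- The cohomology is graded-commutative. -/
def IsGradedCommutative : Prop :=
  ∀ (X : 𝒱.Obj) (i j : ℕ) (a b : H.A X), H.Deg i a → H.Deg j b →
    H.mul a b = (-1 : K) ^ (i * j) • H.mul b a

/-- Rational and homological equivalence coincide on `X`, with rational coefficients. -/
def RatHom (X : 𝒱.Obj) : Prop := ∀ (i : ℕ) (z : C.A X), C.Deg i z → H.cl z = 0 → z = 0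

/-- The step `L^n H^M(X × S)` of the Leray filtration for the projection `X × S → S`: the span of the
external products `a × b` with `a ∈ H^i(X)`, `b ∈ H^j(S)`, `i + j = M` and `j ≥ n`. -/
noncomputable def leray (X S : 𝒱.Obj) (n M : ℤ) : Submodule K (H.A (X.prod S)) :=
  Submodule.span K {c | ∃ (i j : ℤ) (a : H.A X) (b : H.A S), n ≤ j ∧ i + j = M ∧ H.Deg i a ∧
    H.Deg j b ∧ c = H.mul (H.up (fst X S) a) (H.up (snd X S) b)}

end

end Pool.Agent.K6.H99.FF
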