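import Pool.Agent.K6.H99.FF.Defs

/-!
# The Leray filtration of a product
-/

open CategoryTheory AlgebraicGeometry

universe u v w

namespace Pool.Agent.K6.H99.FF

open Pool.Agent.H914 Pool.Agent.H914.VarClass Pool.Agent.H914.VarClass.Obj Pool.Agent.W492.BB
  Pool.Agent.W550.Corr Pool.Agent.TH133

set_option linter.unusedSectionVars false

variable {k : Type u} [Field k] {𝒱 : VarClass k} {C : TheoryData.{u, v, 0} 𝒱 ℚ}
  [hC : IsChowProj C] {K : Type w} [Field K] {H : WeilTheoryData.{u, v, w} C K}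
  [hH : IsWeilProj H] {X Y Z W S : 𝒱.Obj}

include hC hH

omit hC hH in
lemma leray_le {n M : ℤ} {N : Submodule K (H.A (X.prod S))}
    (h : ∀ (i j : ℤ) (a : H.A X) (b : H.A S), n ≤ j → i + j = M → a ∈ H.gr X i →
      b ∈ H.gr S j → H.ext a b ∈ N) : leray H X S n M ≤ N := by
  refine Submodule.span_le.2 ?_
  rintro _ ⟨i, j, a, b, h1, h2, h3, h4, rfl⟩
  exact h i j a b h1 h2 h3 h4

omit hC hH in
lemma ext_mem_leray {n M i j : ℤ} {a : H.A X} {b : H.A S} (h1 : n ≤ j) (h2 : i + j = M)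
    (h3 : a ∈ H.gr X i) (h4 : b ∈ H.gr S j) : H.ext a b ∈ leray H X S n M :=
  Submodule.subset_span ⟨i, j, a, b, h1, h2, h3, h4, rfl⟩

lemma extH_mem {i j : ℤ} {a : H.A X} {b : H.A S} (ha : a ∈ H.gr X i) (hb : b ∈ H.gr S j) :
    H.ext a b ∈ H.gr (X.prod S) (i + j) := H.mul_mem (H.pull_mem _ ha) (H.pull_mem _ hb)

lemma leray_le_gr (n M : ℤ) : leray H X S n M ≤ H.gr (X.prod S) M := by
  refine leray_le fun i j a b _ h2 h3 h4 => ?_
  rw [← h2]
  exact extH_mem h3 h4

omit hC hH in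
lemma leray_anti {n n' M : ℤ} (h : n ≤ n') : leray H X S n' M ≤ leray H X S n M :=
  leray_le fun _ _ _ _ h1 h2 h3 h4 => ext_mem_leray (h.trans h1) h2 h3 h4

lemma leray_zero (M : ℤ) : leray H X S 0 M = H.gr (X.prod S) M := by
  apply le_antisymm (leray_le_gr 0 M)
  refine (H.kunneth X S M).trans (Submodule.span_le.2 ?_)
  rintro _ ⟨l, a, b, ha, hb, rfl⟩
  by_cases hb0 : b = 0
  · rw [hb0, map_zero, mul_zero]
    exact Submodule.zero_mem _
  · exact ext_mem_leray (nonneg_of_mem H hb hb0) (by ring) ha hb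

lemma leray_mul (hc : IsGradedCommutative H) {n n' M M' : ℤ} {c c' : H.A (X.prod S)}
    (h : c ∈ leray H X S n M) (h' : c' ∈ leray H X S n' M') :
    c * c' ∈ leray H X S (n + n') (M + M') := by
  have key : ∀ (i j : ℤ) (a : H.A X) (b : H.A S), n ≤ j → i + j = M → a ∈ H.gr X i →
      b ∈ H.gr S j → leray H X S n' M' ≤
        (leray H X S (n + n') (M + M')).comap (LinearMap.mulLeft K (H.ext a b)) := by
    intro i j a b h1 h2 h3 h4
    refine leray_le fun i' j' a' b' h1' h2' h3' h4' => ?_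
    rw [Submodule.mem_comap, LinearMap.mulLeft_apply]
    by_cases hb0 : b = 0
    · rw [hb0, TheoryData.ext_zero_right, zero_mul]
      exact Submodule.zero_mem _
    by_cases ha0 : a' = 0
    · rw [ha0, TheoryData.ext_zero_left, mul_zero]
      exact Submodule.zero_mem _
    obtain ⟨p, rfl⟩ := Int.eq_ofNat_of_zero_le (nonneg_of_mem H h4 hb0)
    obtain ⟨q, rfl⟩ := Int.eq_ofNat_of_zero_le (nonneg_of_mem H h3' ha0)
    have e1 : H.pull (snd X S) b * H.pull (fst X S) a' =
        (-1 : K) ^ (p * q) • (H.pull (fst X S) a' * H.pull (snd X S) b) :=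
      hc _ p q _ _ (H.pull_mem _ h4) (H.pull_mem _ h3')
    have e2 : H.ext a b * H.ext a' b' = (-1 : K) ^ (p * q) • H.ext (a * a') (b * b') := by
      rw [TheoryData.ext, TheoryData.ext, TheoryData.ext, mul_assoc,
        ← mul_assoc (H.pull (snd X S) b), e1, smul_mul_assoc, mul_smul_comm, map_mul, map_mul]
      simp only [mul_assoc]
    rw [e2]
    exact Submodule.smul_mem _ _ (ext_mem_leray (add_le_add h1 h1') (by omega)
      (H.mul_mem h3 h3') (H.mul_mem h4 h4'))
  have h2 : leray H X S n M ≤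
      (leray H X S (n + n') (M + M')).comap (LinearMap.mulRight K c') := by
    refine leray_le fun i j a b h1 h2 h3 h4 => ?_
    exact key i j a b h1 h2 h3 h4 h'
  exact h2 h

lemma leray_pull (f : X ⟶ Y) {n M : ℤ} {c : H.A (Y.prod S)} (h : c ∈ leray H Y S n M) :
    H.pull (prodMap f (𝟙 S)) c ∈ leray H X S n M := by
  have h1 : leray H Y S n M ≤
      (leray H X S n M).comap (H.pull (prodMap f (𝟙 S))).toLinearMap := by
    refine leray_le fun i j a b h1 h2 h3 h4 => ?_
    rw [Submodule.mem_comap, AlgHom.toLinearMap_apply, pull_ext, H.pull_id]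
    exact ext_mem_leray h1 h2 (H.pull_mem f h3) h4
  exact h1 h

lemma leray_push (f : X ⟶ Y) {n M : ℤ} {c : H.A (X.prod S)} (h : c ∈ leray H X S n M) :
    H.push (prodMap f (𝟙 S)) c ∈ leray H Y S n (M + 2 * (Y.dim - X.dim)) := by
  have h1 : leray H X S n M ≤
      (leray H Y S n (M + 2 * (Y.dim - X.dim))).comap (H.push (prodMap f (𝟙 S))) := by
    refine leray_le fun i j a b h1 h2 h3 h4 => ?_
    rw [Submodule.mem_comap, push_ext, H.push_id]
    exact ext_mem_leray h1 (by rw [← h2]; ring) (H.push_mem f h3) h4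
  exact h1 h

/-- Every class is the sum of a class coming from `X` and of a class in `L^1`. -/
lemma leray_split {M : ℤ} {c : H.A (X.prod S)} (h : c ∈ H.gr (X.prod S) M) :
    ∃ a ∈ H.gr X M, c - H.pull (fst X S) a ∈ leray H X S 1 M := by
  have h1 : leray H X S 0 M ≤
      (H.gr X M).map (H.pull (fst X S)).toLinearMap ⊔ leray H X S 1 M := by
    refine leray_le fun i j a b h1 h2 h3 h4 => ?_
    rcases h1.lt_or_eq with h5 | h5
    · exact Submodule.mem_sup_right (ext_mem_leray h5 h2 h3 h4)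
    · subst h5
      obtain ⟨q, hq⟩ := hH.gr_zero S b h4
      refine Submodule.mem_sup_left ⟨q • a, Submodule.smul_mem _ q ?_, ?_⟩
      · rw [add_zero] at h2
        rwa [← h2]
      · rw [hq, AlgHom.toLinearMap_apply, TheoryData.ext, map_smul, map_smul, map_one,
          mul_smul_comm, mul_one]
  rw [← leray_zero M] at h
  obtain ⟨_, ⟨a, ha, rfl⟩, y, hy, hay⟩ := Submodule.mem_sup.1 (h1 h)
  refine ⟨a, ha, ?_⟩
  rw [← hay, AlgHom.toLinearMap_apply, add_sub_cancel_left]
  exact hy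

/-- The restriction to the fibre, in cohomology. -/
noncomputable def fibreH (H : WeilTheoryData.{u, v, w} C K) {X S : 𝒱.Obj} (s : C.A S) :
    H.A (X.prod S) →ₗ[K] H.A X :=
  H.push (fst X S) ∘ₗ LinearMap.mulRight K (H.pull (snd X S) (H.cl s))

omit hC hH in
lemma fibreH_apply (s : C.A S) (c : H.A (X.prod S)) :
    fibreH H s c = H.push (fst X S) (c * H.pull (snd X S) (H.cl s)) := rfl

lemma cl_fibre (s : C.A S) (z : C.A (X.prod S)) : H.cl (fibre C s z) = fibreH H s (H.cl z) := by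
  change H.cl (C.push (fst X S) (z * C.pull (snd X S) s)) = _
  rw [fibreH_apply, H.cl_push, map_mul, H.cl_pull]

lemma fibreH_leray {s : C.A S} (hs : C.Deg S.dim s) {M : ℤ} {c : H.A (X.prod S)}
    (h : c ∈ leray H X S 1 M) : fibreH H s c = 0 := by
  have h1 : leray H X S 1 M ≤ LinearMap.ker (fibreH (X := X) H s) := by
    refine leray_le fun i j a b h1 h2 h3 h4 => ?_
    have h5 : b * H.cl s = 0 := by
      have h6 := H.mul_mem h4 (H.cl_mem hs)
      rw [gr_top H (by omega)] at h6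
      exact (Submodule.mem_bot _).1 h6
    rw [LinearMap.mem_ker, fibreH_apply, TheoryData.ext, mul_assoc, ← map_mul, h5, map_zero,
      mul_zero, map_zero]
  exact h1 h

lemma fibreH_pull {s : C.A S} (hs : HasDegreeOne s) (a : H.A X) :
    fibreH H s (H.pull (fst X S) a) = a := by
  have h1 : C.push (fst X S) (C.pull (snd X S) s) = 1 := hs.2 X
  rw [fibreH_apply, H.proj_left, ← H.cl_pull, ← H.cl_push, h1, map_one, mul_one]

lemma fibreH_eq_zero_iff {s : C.A S} (hs : HasDegreeOne s) {M : ℤ} {c : H.A (X.prod S)}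
    (h : c ∈ H.gr (X.prod S) M) : fibreH H s c = 0 ↔ c ∈ leray H X S 1 M := by
  constructor
  · intro h0
    obtain ⟨a, _, h1⟩ := leray_split h
    have h2 := fibreH_leray hs.1 h1
    rw [map_sub, h0, fibreH_pull hs, zero_sub, neg_eq_zero] at h2
    rwa [h2, map_zero, sub_zero] at h1
  · exact fibreH_leray hs.1

end Pool.Agent.K6.H99.FF
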