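import Pool.Agent.K6.H99.FF.Leray

/-!
# Bloch-Beilinson filtrations for constant varieties over function fields
-/

open CategoryTheory AlgebraicGeometry

universe u v w u' v' w'

namespace Pool.Agent.K6.H99.FF

open Pool.Agent.H914 Pool.Agent.H914.VarClass Pool.Agent.H914.VarClass.Obj Pool.Agent.W492.BB
  Pool.Agent.W550.Corr Pool.Agent.TH133

set_option linter.unusedSectionVars false

section cl

variable {k : Type u} [Field k] {𝒱 : VarClass k} {C : TheoryData.{u, v, 0} 𝒱 ℚ}
  [hC : IsChowProj C] {K : Type w} [Field K] {H : WeilTheoryData.{u, v, w} C K}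
  [hH : IsWeilProj H] {X Y Z W S : 𝒱.Obj}

include hC hH

/-- The cycle class map is linear up to the coefficients. -/
lemma exists_cl_smul (X : 𝒱.Obj) (q : ℚ) : ∃ c : K, ∀ z : C.A X, H.cl (q • z) = c • H.cl z := by
  have h1 : H.cl (q • (1 : C.A X)) ∈ H.gr X 0 := by
    have := H.cl_mem (Submodule.smul_mem _ q (C.one_mem X))
    rwa [mul_zero] at this
  obtain ⟨c, hc⟩ := hH.gr_zero X _ h1
  refine ⟨c, fun z => ?_⟩
  rw [← one_mul z, ← smul_mul_assoc, map_mul, hc, smul_mul_assoc, one_mul, one_mul]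

variable (H) in
/-- The cycles whose cohomology class is in a given step of the Leray filtration. -/
noncomputable def lerayC (X S : 𝒱.Obj) (n : ℤ) (i : ℤ) : Submodule ℚ (C.A (X.prod S)) where
  carrier := {z | z ∈ C.gr (X.prod S) i ∧ H.cl z ∈ leray H X S n (2 * i)}
  zero_mem' := ⟨Submodule.zero_mem _, by rw [map_zero]; exact Submodule.zero_mem _⟩
  add_mem' h h' := ⟨Submodule.add_mem _ h.1 h'.1, by
    rw [map_add]; exact Submodule.add_mem _ h.2 h'.2⟩
  smul_mem' q z h := ⟨Submodule.smul_mem _ q h.1, by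
    obtain ⟨c, hc⟩ := exists_cl_smul (H := H) (X.prod S) q
    rw [hc]
    exact Submodule.smul_mem _ c h.2⟩

omit hC hH in
lemma mem_lerayC [IsChowProj C] [IsWeilProj H] {n i : ℤ} {z : C.A (X.prod S)} :
    z ∈ lerayC H X S n i ↔ z ∈ C.gr (X.prod S) i ∧ H.cl z ∈ leray H X S n (2 * i) := Iff.rfl

omit hC hH in
/-- The relative action of a class on `(X × Y) × S`. -/
noncomputable def relact {X Y S : 𝒱.Obj} (G : C.A ((X.prod Y).prod S)) (z : C.A (X.prod S)) :
    C.A (Y.prod S) :=
  C.push (prodMap (snd X Y) (𝟙 S)) (G * C.pull (prodMap (fst X Y) (𝟙 S)) z)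

lemma relact_mem {e i : ℤ} {G : C.A ((X.prod Y).prod S)}
    (hG : G ∈ C.gr ((X.prod Y).prod S) (X.dim + e)) {z : C.A (X.prod S)}
    (hz : z ∈ C.gr (X.prod S) i) : relact G z ∈ C.gr (Y.prod S) (i + e) := by
  have h := C.push_mem (prodMap (snd X Y) (𝟙 S)) (C.mul_mem hG
    (C.pull_mem (prodMap (fst X Y) (𝟙 S)) hz))
  have e1 : (X.dim : ℤ) + e + i + 1 * (((Y.prod S).dim : ℤ) - (((X.prod Y).prod S).dim : ℤ)) =
      i + e := by
    rw [dim_prod, dim_prod, dim_prod]; push_cast; ring
  rwa [e1] at h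

lemma cl_relact (G : C.A ((X.prod Y).prod S)) (z : C.A (X.prod S)) :
    H.cl (relact G z) = H.push (prodMap (snd X Y) (𝟙 S))
      (H.cl G * H.pull (prodMap (fst X Y) (𝟙 S)) (H.cl z)) := by
  rw [relact, H.cl_push, map_mul, H.cl_pull]

lemma relact_leray (hc : IsGradedCommutative H) {e i n : ℤ} {G : C.A ((X.prod Y).prod S)}
    (hG : G ∈ C.gr ((X.prod Y).prod S) (X.dim + e)) {z : C.A (X.prod S)}
    (hz : z ∈ lerayC H X S n i) : relact G z ∈ lerayC H Y S n (i + e) := by
  refine ⟨relact_mem (H := H) hG hz.1, ?_⟩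
  rw [cl_relact]
  have h1 := H.cl_mem hG
  rw [← leray_zero] at h1
  have h2 := leray_push (snd X Y) (leray_mul hc h1 (leray_pull (fst X Y) hz.2))
  have e1 : 2 * ((X.dim : ℤ) + e) + 2 * i + 2 * ((Y.dim : ℤ) - ((X.prod Y).dim : ℤ)) =
      2 * (i + e) := by
    rw [dim_prod]; push_cast; ring
  rwa [e1, zero_add] at h2

/-- The relative action in terms of the restriction to a fibre. -/
lemma relact_shift (hc : IsGradedCommutative H) {s : C.A S} (hs : HasDegreeOne s) {e i n : ℤ}
    {G : C.A ((X.prod Y).prod S)} (hG : G ∈ C.gr ((X.prod Y).prod S) (X.dim + e))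
    (hk : Kills H (fibre C s G) (2 * i - n)) {z : C.A (X.prod S)}
    (hz : z ∈ lerayC H X S n i) : relact G z ∈ lerayC H Y S (n + 1) (i + e) := by
  refine ⟨relact_mem (H := H) hG hz.1, ?_⟩
  rw [cl_relact]
  obtain ⟨a, ha, h1⟩ := leray_split (H.cl_mem hG)
  have h2 : a = H.cl (fibre C s G) := by
    have h3 := fibreH_leray hs.1 h1
    rw [map_sub, fibreH_pull hs, sub_eq_zero, ← cl_fibre] at h3
    exact h3.symm
  have e1 : 2 * ((X.dim : ℤ) + e) + 2 * i + 2 * ((Y.dim : ℤ) - ((X.prod Y).dim : ℤ)) =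
      2 * (i + e) := by
    rw [dim_prod]; push_cast; ring
  have h4 : H.push (prodMap (snd X Y) (𝟙 S)) ((H.cl G - H.pull (fst (X.prod Y) S) a) *
      H.pull (prodMap (fst X Y) (𝟙 S)) (H.cl z)) ∈ leray H Y S (n + 1) (2 * (i + e)) := by
    have h5 := leray_push (snd X Y) (leray_mul hc h1 (leray_pull (fst X Y) hz.2))
    rwa [e1, add_comm 1 n] at h5
  have h6 : ∀ c ∈ leray H X S n (2 * i), H.push (prodMap (snd X Y) (𝟙 S))
      (H.pull (fst (X.prod Y) S) a * H.pull (prodMap (fst X Y) (𝟙 S)) c) ∈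
        leray H Y S (n + 1) (2 * (i + e)) := by
    have h7 : leray H X S n (2 * i) ≤ (leray H Y S (n + 1) (2 * (i + e))).comap
        (H.push (prodMap (snd X Y) (𝟙 S)) ∘ₗ LinearMap.mulLeft K (H.pull (fst (X.prod Y) S) a) ∘ₗ
          (H.pull (prodMap (fst X Y) (𝟙 S))).toLinearMap) := by
      refine leray_le fun p q b c hq hpq hb hcq => ?_
      rw [Submodule.mem_comap]
      change H.push (prodMap (snd X Y) (𝟙 S)) (H.pull (fst (X.prod Y) S) a *
        H.pull (prodMap (fst X Y) (𝟙 S)) (H.ext b c)) ∈ _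
      have e2 : H.push (prodMap (snd X Y) (𝟙 S)) (H.pull (fst (X.prod Y) S) a *
          H.pull (prodMap (fst X Y) (𝟙 S)) (H.ext b c)) = H.ext (H.act a b) c := by
        rw [pull_ext, H.pull_id, TheoryData.ext, ← mul_assoc, ← map_mul]
        change H.push _ (H.ext _ _) = _
        rw [push_ext, H.push_id]
        rfl
      rw [e2]
      rcases hq.lt_or_eq with h8 | h8
      · refine ext_mem_leray h8 (i := p + 2 * e) (by omega) ?_ hcq
        rw [h2]
        rw [h2] at ha
        have h9 : fibre C s G ∈ C.gr (X.prod Y) (X.dim + e) := by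
          have := C.push_mem (fst (X.prod Y) S) (C.mul_mem hG (C.pull_mem (snd (X.prod Y) S) hs.1))
          have e3 : (X.dim : ℤ) + e + S.dim + 1 * (((X.prod Y).dim : ℤ) -
              (((X.prod Y).prod S).dim : ℤ)) = X.dim + e := by
            rw [dim_prod (X.prod Y) S]; push_cast; ring
          rwa [e3] at this
        exact actH_mem H h9 hb
      · have h9 : H.act a b = 0 := by
          rw [h2]
          refine hk b ?_
          change b ∈ H.gr X _
          rw [show 2 * i - n = p by omega]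
          exact hb
        rw [h9, TheoryData.ext_zero_left]
        exact Submodule.zero_mem _
    intro c hc'
    exact h7 hc'
  have h7 := Submodule.add_mem _ h4 (h6 _ hz.2)
  rwa [← map_add, ← add_mul, sub_add_cancel] at h7

/-! ### Vanishing -/

lemma eq_of_cl (hR : RatHom H X) {i : ℕ} {z z' : C.A X} (h : z ∈ C.gr X i)
    (h' : z' ∈ C.gr X i) (he : H.cl z = H.cl z') : z = z' := by
  rw [← sub_eq_zero]
  exact hR i _ (Submodule.sub_mem _ h h') (by rw [map_sub, he, sub_self])

lemma cl_extL (Γ : C.A (X.prod Y)) (z : C.A (X.prod S)) :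
    H.cl (C.extL Γ S z) = H.extL (H.cl Γ) S (H.cl z) := by
  rw [TheoryData.extL, TheoryData.extL, H.cl_push, map_mul, H.cl_pull, H.cl_pull]

lemma cl_extR (Γ : C.A (X.prod Y)) (z : C.A (S.prod X)) :
    H.cl (C.extR Γ S z) = H.extR (H.cl Γ) S (H.cl z) := by
  rw [TheoryData.extR, TheoryData.extR, H.cl_push, map_mul, H.cl_pull, H.cl_pull]

omit hC hH in
lemma extL_eq_relact (Γ : C.A (X.prod Y)) (z : C.A (X.prod S)) :
    C.extL Γ S z = relact (C.pull (fst (X.prod Y) S) Γ) z := rfl

lemma pow_mem {h : C.A X} (hh : C.Deg 1 h) (n : ℕ) : h ^ n ∈ C.gr X n := by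
  induction n with
  | zero => rw [pow_zero]; exact C.one_mem X
  | succ n ih =>
    rw [pow_succ]
    have := C.mul_mem ih hh
    exact_mod_cast this

/-- The classes in `L^(i+1) CH^i(X × S)` come from powers of divisors on `X`. -/
lemma lerayC_top (hR : RatHom H (X.prod S)) (hK : KunnethConjecture H) (hL : HasLefschetz H X) {i : ℕ}
    (hi : i ≤ X.dim) {z : C.A (X.prod S)} (hz : z ∈ lerayC H X S (i + 1) i) :
    ∃ (N : ℕ → C.A (X.prod X)) (w : ℕ → C.A (X.prod S)),
      (∀ m < i, w m ∈ C.gr (X.prod S) (X.dim + i - m)) ∧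
      z = ∑ m ∈ Finset.range i, C.extL (N m) S (w m) := by
  obtain ⟨h, hh, hN⟩ := hL
  choose! N hN1 hN2 _ using hN
  choose P hP1 hP2 using hK X
  let w : ℕ → C.A (X.prod S) := fun m => C.pull (fst X S) (h ^ (X.dim - m)) * C.extL (P m) S z
  have hPz : ∀ m, C.extL (P m) S z ∈ C.gr (X.prod S) i := by
    intro m
    rw [extL_eq_relact]
    have := relact_mem (H := H) (e := 0) (G := C.pull (fst (X.prod X) S) (P m))
      (by rw [add_zero]; exact C.pull_mem _ (hP1 m)) hz.1
    rwa [add_zero] at this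
  have hw : ∀ m < i, w m ∈ C.gr (X.prod S) (X.dim + i - m) := by
    intro m hm
    have := C.mul_mem (C.pull_mem (fst X S) (pow_mem (H := H) hh (X.dim - m))) (hPz m)
    rw [Nat.cast_sub (by omega)] at this
    rwa [show (X.dim : ℤ) - m + i = X.dim + i - m by ring] at this
  refine ⟨N, w, hw, ?_⟩
  have hmem : ∀ m < i, C.extL (N m) S (w m) ∈ C.gr (X.prod S) i := by
    intro m hm
    rw [extL_eq_relact]
    have := relact_mem (H := H) (e := (m : ℤ) - X.dim) (G := C.pull (fst (X.prod X) S) (N m))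
      (by rw [add_sub_cancel]; exact C.pull_mem _ (hN1 m (by omega))) (hw m hm)
    rwa [show (X.dim : ℤ) + i - m + (m - X.dim) = i by ring] at this
  refine eq_of_cl hR (i := i) hz.1 (Submodule.sum_mem _ fun m hm => hmem m (Finset.mem_range.1 hm))
    ?_
  have key : ∀ c ∈ leray H X S (i + 1) (2 * i), c = ∑ m ∈ Finset.range i, H.extL (H.cl (N m)) S
      (H.pull (fst X S) (H.cl (h ^ (X.dim - m))) * H.extL (H.cl (P m)) S c) := by
    have h1 : leray H X S (i + 1) (2 * i) ≤ LinearMap.eqLocus LinearMap.id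
        (∑ m ∈ Finset.range i, H.extLL (H.cl (N m)) S ∘ₗ
          LinearMap.mulLeft K (H.pull (fst X S) (H.cl (h ^ (X.dim - m)))) ∘ₗ
            H.extLL (H.cl (P m)) S) := by
      refine leray_le fun p q a b hq hpq ha hb => ?_
      rw [LinearMap.mem_eqLocus, LinearMap.id_apply, LinearMap.sum_apply]
      simp only [LinearMap.comp_apply, LinearMap.mulLeft_apply, TheoryData.extLL_apply]
      by_cases ha0 : a = 0
      · rw [ha0, TheoryData.ext_zero_left]
        symm
        apply Finset.sum_eq_zero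
        intro m _
        have : H.extL (H.cl (P m)) S 0 = 0 := map_zero (H.extLL (H.cl (P m)) S)
        rw [this, mul_zero]
        exact map_zero (H.extLL (H.cl (N m)) S)
      obtain ⟨l, rfl⟩ := Int.eq_ofNat_of_zero_le (nonneg_of_mem H ha ha0)
      rw [Finset.sum_eq_single l]
      · rw [H.extL_ext, hP2 l l a ha, if_pos rfl, TheoryData.ext, ← mul_assoc, ← map_mul]
        change _ = H.extL (H.cl (N l)) S (H.ext _ _)
        rw [H.extL_ext]
        have := hN2 l (by omega) a ha
        change H.act (H.cl (N l)) (H.cl (h ^ (X.dim - l)) * a) = a at this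
        rw [this]
        rfl
      · intro m _ hm
        rw [H.extL_ext, hP2 m l a ha, if_neg (by omega), TheoryData.ext_zero_left, mul_zero]
        exact map_zero (H.extLL (H.cl (N m)) S)
      · intro hl
        rw [Finset.mem_range] at hl
        omega
    intro c hc
    have h2 := h1 hc
    rw [LinearMap.mem_eqLocus, LinearMap.id_apply, LinearMap.sum_apply] at h2
    exact h2
  rw [map_sum, key _ hz.2]
  apply Finset.sum_congr rfl
  intro m _
  rw [cl_extL]
  simp only [w]
  rw [map_mul, H.cl_pull, cl_extL]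

/-- The classes in `L^n CH^i(X × S)` with `n > dim S` are multiples of divisors coming from
`S`. -/
lemma lerayC_base (hR : RatHom H (X.prod S)) (hK : KunnethConjecture H) (hL : HasLefschetz H S) {i : ℕ}
    {z : C.A (X.prod S)} (hz : z ∈ lerayC H X S (S.dim + 1) i) :
    ∃ (J : Finset ℕ) (D : ℕ → C.A S) (r : ℕ → ℕ) (w : ℕ → C.A (X.prod S)),
      (∀ m ∈ J, 0 < r m ∧ C.Deg (r m) (D m)) ∧
      z = ∑ m ∈ J, C.pull (snd X S) (D m) * w m := by
  obtain ⟨h, hh, hN⟩ := hL
  choose! N hN1 _ hN2 using hN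
  choose P hP1 hP2 using hK S
  let w : ℕ → C.A (X.prod S) := fun m => C.extR (N m) X (C.extR (P (2 * S.dim - m)) X z)
  refine ⟨Finset.range S.dim, fun m => h ^ (S.dim - m), fun m => S.dim - m, w, ?_, ?_⟩
  · intro m hm
    rw [Finset.mem_range] at hm
    exact ⟨by change 0 < S.dim - m; omega, pow_mem (H := H) hh _⟩
  have hextR : ∀ {e j : ℤ} {Γ : C.A (S.prod S)} {y : C.A (X.prod S)},
      Γ ∈ C.gr (S.prod S) (S.dim + e) → y ∈ C.gr (X.prod S) j →
      C.extR Γ X y ∈ C.gr (X.prod S) (j + e) := by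
    intro e j Γ y hΓ hy
    have h1 := C.push_mem (u13 X S S) (C.mul_mem (C.pull_mem (snd X (S.prod S)) hΓ)
      (C.pull_mem (u12 X S S) hy))
    have e1 : (S.dim : ℤ) + e + j + 1 * (((X.prod S).dim : ℤ) - ((X.prod (S.prod S)).dim : ℤ)) =
        j + e := by
      rw [dim_prod X S, dim_prod X (S.prod S), dim_prod S S]; push_cast; ring
    rwa [e1] at h1
  have hmem : ∀ m < S.dim, C.pull (snd X S) (h ^ (S.dim - m)) * w m ∈ C.gr (X.prod S) i := by
    intro m hm
    have h1 := hextR (e := 0) (Γ := P (2 * S.dim - m)) (by rw [add_zero]; exact hP1 _) hz.1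
    have h2 := hextR (e := (m : ℤ) - S.dim) (Γ := N m)
      (by rw [add_sub_cancel]; exact hN1 m (by omega)) h1
    have h3 := C.mul_mem (C.pull_mem (snd X S) (pow_mem (H := H) hh (S.dim - m))) h2
    rw [Nat.cast_sub (by omega)] at h3
    rwa [show (S.dim : ℤ) - m + (i + 0 + (m - S.dim)) = i by ring] at h3
  refine eq_of_cl hR (i := i) hz.1 (Submodule.sum_mem _ fun m hm => hmem m (Finset.mem_range.1 hm))
    ?_
  have hcent : ∀ (Γ : C.A (S.prod S)) (c : H.A (X.prod (S.prod S))),
      H.pull (snd X (S.prod S)) (H.cl Γ) * c = c * H.pull (snd X (S.prod S)) (H.cl Γ) := by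
    intro Γ c
    rw [← H.cl_pull, H.cl_central]
  have key : ∀ c ∈ leray H X S (S.dim + 1) (2 * i), c = ∑ m ∈ Finset.range S.dim,
      H.pull (snd X S) (H.cl (h ^ (S.dim - m))) *
        H.extR (H.cl (N m)) X (H.extR (H.cl (P (2 * S.dim - m))) X c) := by
    have h1 : leray H X S (S.dim + 1) (2 * i) ≤ LinearMap.eqLocus LinearMap.id
        (∑ m ∈ Finset.range S.dim,
          LinearMap.mulLeft K (H.pull (snd X S) (H.cl (h ^ (S.dim - m)))) ∘ₗ
            H.extRL (H.cl (N m)) X ∘ₗ H.extRL (H.cl (P (2 * S.dim - m))) X) := by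
      refine leray_le fun p q a b hq hpq ha hb => ?_
      rw [LinearMap.mem_eqLocus, LinearMap.id_apply, LinearMap.sum_apply]
      simp only [LinearMap.comp_apply, LinearMap.mulLeft_apply, TheoryData.extRL_apply]
      by_cases hb0 : b = 0
      · rw [hb0, TheoryData.ext_zero_right]
        symm
        apply Finset.sum_eq_zero
        intro m _
        have e1 : H.extR (H.cl (P (2 * S.dim - m))) X 0 = 0 :=
          map_zero (H.extRL (H.cl (P (2 * S.dim - m))) X)
        have e2 : H.extR (H.cl (N m)) X 0 = 0 := map_zero (H.extRL (H.cl (N m)) X)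
        rw [e1, e2, mul_zero]
      obtain ⟨l, rfl⟩ := Int.eq_ofNat_of_zero_le (nonneg_of_mem H hb hb0)
      have hl : l ≤ 2 * S.dim := by
        by_contra hl
        rw [gr_top H (by omega)] at hb
        exact hb0 ((Submodule.mem_bot _).1 hb)
      rw [Finset.sum_eq_single (2 * S.dim - l)]
      · have hb' : H.Deg (2 * S.dim - ((2 * S.dim - l : ℕ) : ℤ)) b := by
          rw [Nat.cast_sub hl]
          push_cast
          rw [sub_sub_cancel]
          exact hb
        have e1 : 2 * S.dim - (2 * S.dim - l) = l := by omega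
        rw [e1, H.extR_ext _ (hcent _), hP2 l l b hb, if_pos rfl, H.extR_ext _ (hcent _)]
        have e2 := hN2 (2 * S.dim - l) (by omega) b hb'
        change H.cl (h ^ (S.dim - (2 * S.dim - l))) * H.act (H.cl (N (2 * S.dim - l))) b = b at e2
        have e3 : H.pull (snd X S) (H.cl (h ^ (S.dim - (2 * S.dim - l)))) *
            H.ext a (H.act (H.cl (N (2 * S.dim - l))) b) =
            H.ext a (H.cl (h ^ (S.dim - (2 * S.dim - l))) * H.act (H.cl (N (2 * S.dim - l))) b) := by
          rw [TheoryData.ext, TheoryData.ext, ← mul_assoc, ← H.cl_pull, H.cl_central, mul_assoc,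
            map_mul, H.cl_pull]
        rw [e3, e2]
      · intro m hm hm'
        rw [Finset.mem_range] at hm
        rw [H.extR_ext _ (hcent _), hP2 _ l b hb, if_neg (by omega), TheoryData.ext_zero_right]
        have e2 : H.extR (H.cl (N m)) X 0 = 0 := map_zero (H.extRL (H.cl (N m)) X)
        rw [e2, mul_zero]
      · intro hl'
        rw [Finset.mem_range] at hl'
        omega
    intro c hc
    have h2 := h1 hc
    rw [LinearMap.mem_eqLocus, LinearMap.id_apply, LinearMap.sum_apply] at h2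
    exact h2
  rw [map_sum, key _ hz.2]
  apply Finset.sum_congr rfl
  intro m _
  simp only [w]
  rw [map_mul, H.cl_pull, cl_extR, cl_extR]

end cl

end Pool.Agent.K6.H99.FF
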